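import Pool.Agent.N236.UR.Stm2

/-!
# UR/CNT: number of affine fixed points (helper645)

The final vector `(F, G)` consists of coprime polynomials; its Wronskian is divisible by the entries of the
first linear image of `(X, 1)`. If `F = X G` then `G` is a unit and the Wronskian is `- G ^ 2`.
-/

set_option autoImplicit false

open Polynomial

namespace Pool.Agent.N645.UR

open Pool.Agent.N236.UR

variable {K : Type} [Field K]

/-- a linear map on pairs of polynomials -/
noncomputable def linP (A : Matrix (Fin 2) (Fin 2) K) (x : K[X] × K[X]) : K[X] × K[X] :=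
  (C (A 0 0) * x.1 + C (A 0 1) * x.2, C (A 1 0) * x.1 + C (A 1 1) * x.2)

/-- powers of pairs of polynomials -/
noncomputable def pwP (l : ℕ) (x : K[X] × K[X]) : K[X] × K[X] := (x.1 ^ l, x.2 ^ l)

/-- the run on pairs of polynomials -/
noncomputable def runP : List (Matrix (Fin 2) (Fin 2) K × ℕ) → K[X] × K[X] → K[X] × K[X]
  | [], x => x
  | s :: t, x => runP t (pwP s.2 (linP s.1 x))

/-- evaluation -/
noncomputable def evP (x : K) (V : K[X] × K[X]) : K × K := (V.1.eval x, V.2.eval x)

lemma ev_lin (x : K) (A : Matrix (Fin 2) (Fin 2) K) (V : K[X] × K[X]) :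
    evP x (linP A V) = lin A (evP x V) := by
  unfold evP linP lin
  simp

lemma ev_pw (x : K) (l : ℕ) (V : K[X] × K[X]) : evP x (pwP l V) = pw l (evP x V) := by
  unfold evP pwP pw
  simp

lemma ev_run (x : K) (st : List (Matrix (Fin 2) (Fin 2) K × ℕ)) : ∀ V : K[X] × K[X],
    evP x (runP st V) = run st (evP x V) := by
  induction st with
  | nil => intro V; rfl
  | cons s t ih =>
    intro V
    show evP x (runP t (pwP s.2 (linP s.1 V))) = run t (pw s.2 (lin s.1 (evP x V)))
    rw [ih, ev_pw, ev_lin]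

lemma deg_lin {A : Matrix (Fin 2) (Fin 2) K} {V : K[X] × K[X]} {m : ℕ}
    (h : V.1.natDegree ≤ m ∧ V.2.natDegree ≤ m) :
    (linP A V).1.natDegree ≤ m ∧ (linP A V).2.natDegree ≤ m := by
  have h1 : ∀ a b : K, (C a * V.1 + C b * V.2).natDegree ≤ m := by
    intro a b
    refine (natDegree_add_le _ _).trans (max_le ?_ ?_)
    · exact (natDegree_C_mul_le _ _).trans h.1
    · exact (natDegree_C_mul_le _ _).trans h.2
  exact ⟨h1 _ _, h1 _ _⟩

lemma deg_run (st : List (Matrix (Fin 2) (Fin 2) K × ℕ)) : ∀ (V : K[X] × K[X]) (m : ℕ),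
    V.1.natDegree ≤ m ∧ V.2.natDegree ≤ m →
    (runP st V).1.natDegree ≤ m * (st.map Prod.snd).prod ∧
      (runP st V).2.natDegree ≤ m * (st.map Prod.snd).prod := by
  induction st with
  | nil => intro V m h; simpa [runP] using h
  | cons s t ih =>
    intro V m h
    have h1 := deg_lin (A := s.1) h
    have h2 : (pwP s.2 (linP s.1 V)).1.natDegree ≤ m * s.2 ∧
        (pwP s.2 (linP s.1 V)).2.natDegree ≤ m * s.2 := by
      unfold pwP
      refine ⟨natDegree_pow_le.trans ?_, natDegree_pow_le.trans ?_⟩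
      · rw [mul_comm]; exact Nat.mul_le_mul_right _ h1.1
      · rw [mul_comm]; exact Nat.mul_le_mul_right _ h1.2
    have h3 := ih _ _ h2
    rw [List.map_cons, List.prod_cons, ← mul_assoc]
    exact h3

lemma cop_lin {A : Matrix (Fin 2) (Fin 2) K} (hA : A.det ≠ 0) {V : K[X] × K[X]}
    (h : IsCoprime V.1 V.2) : IsCoprime (linP A V).1 (linP A V).2 := by
  obtain ⟨u, v, huv⟩ := h
  rw [Matrix.det_fin_two] at hA
  obtain ⟨δ, hδ⟩ : ∃ δ : K, δ = A 0 0 * A 1 1 - A 0 1 * A 1 0 := ⟨_, rfl⟩
  rw [← hδ] at hA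
  have h1 : C δ⁻¹ * (C (A 0 0) * C (A 1 1) - C (A 0 1) * C (A 1 0)) = (1 : K[X]) := by
    rw [← C_mul, ← C_mul, ← C_sub, ← hδ, ← C_mul, inv_mul_cancel₀ hA, C_1]
  refine ⟨C δ⁻¹ * (u * C (A 1 1) - v * C (A 1 0)), C δ⁻¹ * (v * C (A 0 0) - u * C (A 0 1)), ?_⟩
  unfold linP
  simp only
  linear_combination (u * V.1 + v * V.2) * h1 + huv

lemma cop_run (st : List (Matrix (Fin 2) (Fin 2) K × ℕ)) : ∀ (V : K[X] × K[X]),
    (∀ s ∈ st, s.1.det ≠ 0) → IsCoprime V.1 V.2 →
    IsCoprime (runP st V).1 (runP st V).2 := by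
  induction st with
  | nil => intro V _ h; exact h
  | cons s t ih =>
    intro V hs h
    refine ih _ (fun s' hs' => hs s' (List.mem_cons_of_mem _ hs')) ?_
    exact (cop_lin (hs s List.mem_cons_self) h).pow

/-- the Wronskian -/
noncomputable def Wr (V : K[X] × K[X]) : K[X] := V.1 * derivative V.2 - V.2 * derivative V.1

lemma wr_lin (A : Matrix (Fin 2) (Fin 2) K) (V : K[X] × K[X]) :
    Wr (linP A V) = C A.det * Wr V := by
  rw [Matrix.det_fin_two]
  unfold Wr linP
  simp only [derivative_add, derivative_mul, derivative_C, zero_mul, zero_add, C_sub, C_mul]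
  ring

lemma wr_pw (l : ℕ) (hl : 1 ≤ l) (V : K[X] × K[X]) :
    Wr (pwP l V) = C (l : K) * (V.1 * V.2) ^ (l - 1) * Wr V := by
  obtain ⟨k, rfl⟩ : ∃ k, l = k + 1 := ⟨l - 1, by omega⟩
  unfold Wr pwP
  simp only
  rw [derivative_pow, derivative_pow, Nat.add_sub_cancel, mul_pow, pow_succ, pow_succ]
  ring

lemma dvd_run (st : List (Matrix (Fin 2) (Fin 2) K × ℕ)) : ∀ (V : K[X] × K[X]) (D : K[X]),
    (∀ s ∈ st, 2 ≤ s.2) → D ∣ Wr V → D ∣ Wr (runP st V) := by
  induction st with
  | nil => intro V D _ h; exact h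
  | cons s t ih =>
    intro V D hs h
    refine ih _ _ (fun s' hs' => hs s' (List.mem_cons_of_mem _ hs')) ?_
    have h2 := hs s List.mem_cons_self
    rw [wr_pw s.2 (by omega), wr_lin]
    exact Dvd.dvd.mul_left (Dvd.dvd.mul_left h _) _

theorem t_cnt : Pool.Agent.N236.UR.S_CNT := by
  intro K _ _ st B hst hB hne S hS
  classical
  obtain ⟨V, hV⟩ : ∃ V : K[X] × K[X], V = linP B (runP st (X, 1)) := ⟨_, rfl⟩
  obtain ⟨R, hR⟩ : ∃ R : K[X], R = V.1 - X * V.2 := ⟨_, rfl⟩
  have hroot : ∀ x ∈ S, R.eval x = 0 := by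
    intro x hx
    have h1 := hS x hx
    have h2 : evP x V = lin B (run st (x, 1)) := by
      rw [hV, ev_lin, ev_run]
      congr 2
      unfold evP
      simp
    rw [← h2] at h1
    unfold wd evP at h1
    simp only [mul_one] at h1
    rw [hR]
    simp only [eval_sub, eval_mul, eval_X]
    linear_combination h1
  have hdeg : R.natDegree ≤ (st.map Prod.snd).prod + 1 := by
    have h1 := deg_run st ((X, 1) : K[X] × K[X]) 1 ⟨natDegree_X_le, by simp⟩
    rw [one_mul] at h1
    have h2 := deg_lin (A := B) h1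
    rw [← hV] at h2
    rw [hR]
    refine (natDegree_sub_le _ _).trans (max_le (by omega) ?_)
    refine natDegree_mul_le.trans ?_
    have h3 : (X : K[X]).natDegree ≤ 1 := natDegree_X_le
    omega
  have hR0 : R ≠ 0 := by
    intro h0
    rw [hR, sub_eq_zero] at h0
    have hcop : IsCoprime V.1 V.2 := by
      rw [hV]
      refine cop_lin hB (cop_run st _ (fun s hs => (hst s hs).1) ?_)
      exact isCoprime_one_right
    have hunit : IsUnit V.2 := by
      rw [h0] at hcop
      exact (isCoprime_self.1 (IsCoprime.of_mul_left_right hcop))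
    have hWr : Wr V = -(V.2 ^ 2) := by
      unfold Wr
      rw [h0, derivative_mul, derivative_X]
      ring
    obtain ⟨s, t, rfl⟩ : ∃ s t, st = s :: t := by
      cases st with
      | nil => exact absurd rfl hne
      | cons s t => exact ⟨s, t, rfl⟩
    have hs := hst s List.mem_cons_self
    obtain ⟨U, hU⟩ : ∃ U : K[X] × K[X], U = linP s.1 (X, 1) := ⟨_, rfl⟩
    have hdvd : (U.1 * U.2) ∣ Wr V := by
      rw [hV, wr_lin]
      apply Dvd.dvd.mul_left
      refine dvd_run t _ _ (fun s' hs' => (hst s' (List.mem_cons_of_mem _ hs')).2) ?_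
      rw [← hU, wr_pw s.2 (by omega)]
      apply Dvd.dvd.mul_right
      apply Dvd.dvd.mul_left
      exact dvd_pow_self _ (by omega)
    have hu : IsUnit (U.1 * U.2) := by
      refine isUnit_of_dvd_unit hdvd ?_
      rw [hWr]
      exact (hunit.pow 2).neg
    have hu1 : IsUnit U.1 := isUnit_of_mul_isUnit_left hu
    have hu2 : IsUnit U.2 := isUnit_of_mul_isUnit_right hu
    have hlin : ∀ a b : K, IsUnit (C a * X + C b * 1 : K[X]) → a = 0 := by
      intro a b h
      have h1 := natDegree_eq_zero_of_isUnit h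
      by_contra ha
      rw [mul_one, natDegree_linear ha] at h1
      exact one_ne_zero h1
    have ha := hlin (s.1 0 0) (s.1 0 1) (by rw [hU] at hu1; exact hu1)
    have hb := hlin (s.1 1 0) (s.1 1 1) (by rw [hU] at hu2; exact hu2)
    apply hs.1
    rw [Matrix.det_fin_two, ha, hb]
    ring
  have hsub : S ⊆ R.roots.toFinset := by
    intro x hx
    rw [Multiset.mem_toFinset, mem_roots hR0]
    exact hroot x hx
  exact (Finset.card_le_card hsub).trans ((Multiset.toFinset_card_le _).trans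
    ((card_roots' R).trans hdeg))

end Pool.Agent.N645.UR
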